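import Mathlib
import Pool.Agent.Q254.CrDataA
import Pool.Agent.Q254.CrDataB
import Pool.Agent.Q254.CrDataC

/-!
# MP_9329f2_nt: the number of components of the closure of `σ_{-r}(ℕ)` is not monotone in `r`

`C_4 = 140`, `C_{69/16} = 253` and `C_{173/40} = 251`.
-/

namespace Pool.Agent.Results.MP_9329f2_nt.NotMonotone

/-- the divisor function `σ_{-r}(n) = ∑_{d ∣ n} d^{-r}` -/
noncomputable def sigmaNeg (r : ℝ) (n : ℕ) : ℝ := ∑ d ∈ n.divisors, (d : ℝ) ^ (-r)

/-- the closure of `σ_{-r}({1, 2, 3, ...})` in `ℝ` -/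
def sigmaClosure (r : ℝ) : Set ℝ := closure {y : ℝ | ∃ n : ℕ, 1 ≤ n ∧ sigmaNeg r n = y}

/-- `C_r`, the number of connected components of `sigmaClosure r` -/
noncomputable def numComp (r : ℝ) : ℕ := Nat.card (ConnectedComponents (sigmaClosure r))

lemma sigmaClosure_eq (r : ℝ) : sigmaClosure r = closure (Q254.CR.A r 2) := by
  unfold sigmaClosure
  rw [Q254.CR.A_two]
  congr 1
  ext y
  constructor
  · rintro ⟨n, h1, h2⟩; exact ⟨n, by omega, h2⟩
  · rintro ⟨n, h1, h2⟩; exact ⟨n, by omega, h2⟩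

lemma c0 : numComp 4 = 140 := by
  unfold numComp
  rw [sigmaClosure_eq]
  have := Q254.CR.R0.count
  rwa [show (((4 : ℕ) : ℝ) / (1 : ℕ)) = 4 by norm_num] at this

lemma c1 : numComp (69 / 16) = 253 := by
  unfold numComp
  rw [sigmaClosure_eq]
  have := Q254.CR.R1.count
  rwa [show (((69 : ℕ) : ℝ) / (16 : ℕ)) = 69 / 16 by norm_num] at this

lemma c2 : numComp (173 / 40) = 251 := by
  unfold numComp
  rw [sigmaClosure_eq]
  have := Q254.CR.R2.count
  rwa [show (((173 : ℕ) : ℝ) / (40 : ℕ)) = 173 / 40 by norm_num] at this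

/-- `C_4 = 140`, `C_{69/16} = 253`, `C_{173/40} = 251`; hence there are `1 < r < s` with
`C_r > C_s`, and `r ↦ C_r` is neither nondecreasing nor nonincreasing on `(1, ∞)`. -/
theorem result :
    numComp 4 = 140 ∧ numComp (69 / 16) = 253 ∧ numComp (173 / 40) = 251 ∧
    (∃ r s : ℝ, 1 < r ∧ r < s ∧ numComp s < numComp r) ∧
    ¬ MonotoneOn numComp (Set.Ioi 1) ∧ ¬ AntitoneOn numComp (Set.Ioi 1) := by
  refine ⟨c0, c1, c2, ⟨69 / 16, 173 / 40, by norm_num, by norm_num, ?_⟩, ?_, ?_⟩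
  · rw [c1, c2]; norm_num
  · intro h
    have := h (a := 69 / 16) (b := 173 / 40) (by norm_num [Set.mem_Ioi]) (by norm_num [Set.mem_Ioi])
      (by norm_num)
    rw [c1, c2] at this
    omega
  · intro h
    have := h (a := 4) (b := 69 / 16) (by norm_num [Set.mem_Ioi]) (by norm_num [Set.mem_Ioi])
      (by norm_num)
    rw [c0, c1] at this
    omega

end Pool.Agent.Results.MP_9329f2_nt.NotMonotone
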